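import Pool.Agent.Work.MP_7e9539_an.Proofs

/-!
# Ternary hereditary subspaces of Hilbert modules are linking hereditary

The definitions are in `Pool/Agent/Work/MP_7e9539_an/Defs.lean`, the proof is in
`Pool/Agent/Work/MP_7e9539_an/Proofs.lean`.
-/

set_option autoImplicit false

open Pool.Agent.Work.MP_7e9539_an

namespace Pool.Agent.Results.MP_7e9539_an.TernaryHereditary

/-- **Ternary hereditary closed ternary subspaces are linking hereditary.**
For every C⋆-algebra `B`, every (not necessarily full) right Hilbert `B`-module `E` and every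
closed ternary subspace `F` of `E`: if `F ⟨E, F⟩ ⊆ F`, then `𝓛_F 𝓛_E 𝓛_F ⊆ 𝓛_F`, where `𝓛_F`
and `𝓛_E` are the reduced linking algebras. -/
theorem result (B : Type*) [NonUnitalCStarAlgebra B] [PartialOrder B] [StarOrderedRing B]
    (E : Type*) [NormedAddCommGroup E] [NormedSpace ℂ E] [CompleteSpace E]
    [RightHilbertModule B E] (F : Submodule ℂ E) (hF : IsClosedTernary B F)
    (hT : IsTernaryHereditary B F) : IsLinkingHereditary B F :=
  main B E F hF hT

end Pool.Agent.Results.MP_7e9539_an.TernaryHereditary
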